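import Mathlib
import Pool.Agent.Helper33.OWN.ZonoLimit

set_option autoImplicit false

open Finset Module

namespace Pool.Agent.Results.MP_1bae07_gt.ZonoidRounding

/-- A zonotope: a finite Minkowski sum of the segments `[-v_j, v_j]`. -/
def IsZonotope {V : Type*} [AddCommGroup V] [Module ℝ V] (Z : Set V) : Prop :=
  ∃ (m : ℕ) (v : Fin m → V), Z = {x | ∃ t : Fin m → ℝ, (∀ j, |t j| ≤ 1) ∧ x = ∑ j, t j • v j}

/-- A zonoid: a nonempty compact set which is a limit of zonotopes in the Hausdorff distance. -/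
def IsZonoid {V : Type*} [NormedAddCommGroup V] [NormedSpace ℝ V] (K : Set V) : Prop :=
  IsCompact K ∧ K.Nonempty ∧ ∀ δ : ℝ, 0 < δ → ∃ Z : Set V, IsZonotope Z ∧
    Metric.hausdorffDist K Z < δ

/-- Rounding for zonoids: for vectors `u_i` of a zonoid `K` with span of dimension `r` and reals
`l_i` in `[-1,1]` there are signs `x_i` with `∑ (x_i - l_i) u_i` in
`2700 (min(n,r) r)^(1/4) K`. -/
theorem result {V : Type*} [NormedAddCommGroup V] [NormedSpace ℝ V] [FiniteDimensional ℝ V]
    (K : Set V) (hK : IsZonoid K) (r : ℕ) (hr : finrank ℝ (Submodule.span ℝ K) = r)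
    (n : ℕ) (u : Fin n → V) (hu : ∀ i, u i ∈ K) (l : Fin n → ℝ) (hl : ∀ i, |l i| ≤ 1) :
    ∃ x : Fin n → ℝ, (∀ i, x i = 1 ∨ x i = -1) ∧
      ∃ y ∈ K, ∑ i, (x i - l i) • u i = (2700 * √√((min n r : ℕ) * (r : ℝ))) • y := by
  classical
  obtain ⟨hKc, hKne, hKlim⟩ := hK
  set R : ℝ := 2700 * √√((min n r : ℕ) * (r : ℝ)) with hR
  have hR0 : 0 ≤ R := by positivity
  -- a projection onto the span
  set W := Submodule.span ℝ K with hW
  obtain ⟨W', hW'⟩ := W.exists_isCompl
  set P0 : V →ₗ[ℝ] W := W.linearProjOfIsCompl W' hW' with hP0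
  set P : V →L[ℝ] V := LinearMap.toContinuousLinearMap (W.subtype ∘ₗ P0) with hP
  have hPK : ∀ y ∈ K, P y = y := by
    intro y hy
    have h1 : P0 y = ⟨y, Submodule.subset_span hy⟩ :=
      Submodule.linearProjOfIsCompl_apply_left hW' ⟨y, Submodule.subset_span hy⟩
    change ((P0 y : W) : V) = y
    rw [h1]
  -- the compact set of candidates
  set S : Set ((Fin n → ℝ) × V) := (Set.univ.pi fun _ : Fin n => ({1, -1} : Set ℝ)) ×ˢ K with hS
  have hSc : IsCompact S :=
    (isCompact_univ_pi fun _ => (Set.toFinite _).isCompact).prod hKc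
  have hSne : S.Nonempty := by
    obtain ⟨y, hy⟩ := hKne
    exact ⟨(fun _ => 1, y), Set.mem_prod.2 ⟨fun _ _ => by simp, hy⟩⟩
  set F : (Fin n → ℝ) × V → ℝ := fun q => ‖∑ i, (q.1 i - l i) • u i - R • q.2‖ with hF
  have hFc : Continuous F := by
    rw [hF]
    fun_prop
  obtain ⟨q, hq, hmin⟩ := hSc.exists_isMinOn hSne hFc.continuousOn
  -- the minimum is zero
  have key : ∀ δ : ℝ, 0 < δ → ∃ q' ∈ S, F q' ≤ (2 * n + R) * ‖P‖ * δ := by
    intro δ hδ
    obtain ⟨Z, ⟨m, v, hZ⟩, hdist⟩ := hKlim δ hδ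
    have hZne : Z.Nonempty := by
      rw [hZ]
      exact ⟨0, fun _ => 0, by simp, by simp⟩
    have hZb : Bornology.IsBounded Z := by
      have h1 : Z = (fun t : Fin m → ℝ => ∑ j, t j • v j) '' (Set.univ.pi fun _ => Set.Icc (-1) 1) := by
        rw [hZ]
        ext x
        constructor
        · rintro ⟨t, ht, rfl⟩
          exact ⟨t, fun j _ => abs_le.1 (ht j), rfl⟩
        · rintro ⟨t, ht, rfl⟩
          exact ⟨t, fun j => abs_le.2 (ht j (Set.mem_univ j)), rfl⟩
      rw [h1]
      exact ((isCompact_univ_pi fun _ => isCompact_Icc).image (by fun_prop)).isBounded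
    have hfin : Metric.hausdorffEDist K Z ≠ ⊤ :=
      Metric.hausdorffEDist_ne_top_of_nonempty_of_bounded hKne hZne hKc.isBounded hZb
    have h1 : ∀ i, ∃ z ∈ Z, dist (u i) z < δ := fun i =>
      Metric.exists_dist_lt_of_hausdorffDist_lt (hu i) hdist hfin
    choose z hzZ hzd using h1
    have h2 : ∀ i, ∃ t : Fin m → ℝ, (∀ j, |t j| ≤ 1) ∧ z i = ∑ j, t j • v j := by
      intro i
      have := hzZ i
      rw [hZ] at this
      exact this
    choose t ht hzt using h2
    obtain ⟨x, hx, s, hs, hxs⟩ := Pool.Agent.Helper33.OWN.round_zonotope hr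
      (fun j => P0 (v j)) t ht l hl
    rw [← hR] at hxs
    -- transfer to V
    have h3 : ∑ i, (x i - l i) • P (z i) = R • P (∑ j, s j • v j) := by
      have h4 := congrArg (fun w : W => (w : V)) hxs
      simp only [Submodule.coe_sum, Submodule.coe_smul] at h4
      have h5 : ∀ i, P (z i) = ∑ j, t i j • ((P0 (v j) : W) : V) := by
        intro i
        rw [hzt i, map_sum]
        refine Finset.sum_congr rfl fun j _ => ?_
        rw [map_smul]
        rfl
      have h6 : P (∑ j, s j • v j) = ∑ j, s j • ((P0 (v j) : W) : V) := by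
        rw [map_sum]
        refine Finset.sum_congr rfl fun j _ => ?_
        rw [map_smul]
        rfl
      rw [h6, ← h4]
      exact Finset.sum_congr rfl fun i _ => by rw [h5 i]
    have hyZ : ∑ j, s j • v j ∈ Z := by
      rw [hZ]
      exact ⟨s, hs, rfl⟩
    obtain ⟨y, hyK, hyd⟩ := Metric.exists_dist_lt_of_hausdorffDist_lt' hyZ hdist hfin
    refine ⟨(x, y), Set.mem_prod.2 ⟨fun i _ => ?_, hyK⟩, ?_⟩
    · rcases hx i with h | h <;> simp [h]
    · have h7 : ∑ i, (x i - l i) • u i - R • y =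
          ∑ i, (x i - l i) • P (u i - z i) - R • P (y - ∑ j, s j • v j) := by
        have e1 : ∑ i, (x i - l i) • P (u i - z i) =
            ∑ i, (x i - l i) • u i - ∑ i, (x i - l i) • P (z i) := by
          rw [← Finset.sum_sub_distrib]
          refine Finset.sum_congr rfl fun i _ => ?_
          rw [map_sub, hPK _ (hu i), smul_sub]
        rw [e1, h3, map_sub, hPK _ hyK, smul_sub]
        abel
      change ‖∑ i, (x i - l i) • u i - R • y‖ ≤ _
      rw [h7]
      have h8 : ‖∑ i, (x i - l i) • P (u i - z i)‖ ≤ 2 * n * ‖P‖ * δ := by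
        calc ‖∑ i, (x i - l i) • P (u i - z i)‖ ≤ ∑ i, ‖(x i - l i) • P (u i - z i)‖ :=
              norm_sum_le _ _
          _ ≤ ∑ _i : Fin n, 2 * (‖P‖ * δ) := by
              refine Finset.sum_le_sum fun i _ => ?_
              rw [norm_smul]
              have h9 : ‖x i - l i‖ ≤ 2 := by
                have h10 := abs_le.1 (hl i)
                rw [Real.norm_eq_abs, abs_le]
                rcases hx i with h | h <;> rw [h] <;> constructor <;> linarith
              have h11 : ‖P (u i - z i)‖ ≤ ‖P‖ * δ := by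
                refine (P.le_opNorm _).trans ?_
                refine mul_le_mul_of_nonneg_left ?_ (norm_nonneg _)
                rw [← dist_eq_norm]
                exact (hzd i).le
              exact mul_le_mul h9 h11 (norm_nonneg _) (by norm_num)
          _ = 2 * n * ‖P‖ * δ := by
              rw [Finset.sum_const, Finset.card_univ, Fintype.card_fin, nsmul_eq_mul]
              ring
      have h12 : ‖R • P (y - ∑ j, s j • v j)‖ ≤ R * (‖P‖ * δ) := by
        rw [norm_smul, Real.norm_of_nonneg hR0]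
        refine mul_le_mul_of_nonneg_left ?_ hR0
        refine (P.le_opNorm _).trans ?_
        refine mul_le_mul_of_nonneg_left ?_ (norm_nonneg _)
        rw [← dist_eq_norm]
        exact hyd.le
      calc ‖∑ i, (x i - l i) • P (u i - z i) - R • P (y - ∑ j, s j • v j)‖ ≤
            2 * n * ‖P‖ * δ + R * (‖P‖ * δ) := (norm_sub_le _ _).trans (add_le_add h8 h12)
        _ = (2 * n + R) * ‖P‖ * δ := by ring
  have hFq : F q = 0 := by
    refine le_antisymm ?_ (norm_nonneg _)
    refine le_of_forall_pos_le_add fun ε hε => ?_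
    set C : ℝ := (2 * n + R) * ‖P‖ with hC
    have hC0 : 0 ≤ C := by positivity
    obtain ⟨q', hq', hle⟩ := key (ε / (C + 1)) (by positivity)
    have h1 : F q ≤ F q' := hmin hq'
    refine (h1.trans hle).trans ?_
    rw [zero_add, ← mul_div_assoc, div_le_iff₀ (by positivity)]
    nlinarith
  obtain ⟨hq1, hq2⟩ := Set.mem_prod.1 hq
  refine ⟨q.1, fun i => ?_, q.2, hq2, ?_⟩
  · have := hq1 i (Set.mem_univ i)
    simpa using this
  · exact sub_eq_zero.1 (norm_eq_zero.1 hFq)

end Pool.Agent.Results.MP_1bae07_gt.ZonoidRounding
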